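import Mathlib

set_option autoImplicit false

open List

namespace Pool.Agent.Results.MP_6c7e5c_co.Full

/-- The permutations of `[n]` (words of length `n` without repeated letter) contained in `w`. -/
def Perms {n : ℕ} (w : List (Fin n)) : Set (List (Fin n)) := {p | p.length = n ∧ p.Nodup ∧ p <+ w}

/-- Lengths of words containing at least `m` permutations; `h(n,m)` is its minimum. -/
def H (n m : ℕ) : Set ℕ := {L | ∃ w : List (Fin n), w.length = L ∧ m ≤ (Perms w).ncard}

/-- `ℓ(m,n)` is the minimum of this set. -/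
def E (m n : ℕ) : Set ℕ := {l | m ≤ l.choose n}

def wd (n K : ℕ) : List (Fin n) := (finRange K).flatMap fun _ => finRange n

def pf {n K : ℕ} (f : Fin n → Fin K) : List (Fin n) :=
  (finRange K).flatMap fun k => (finRange n).filter fun i => f i = k

lemma fin {n : ℕ} (w : List (Fin n)) : (Perms w).Finite :=
  (finite_toSet w.sublists).subset fun _ h => mem_sublists.2 h.2.2

lemma pf_perm {n K : ℕ} (f : Fin n → Fin K) : pf f ~ finRange n := by
  refine (perm_ext_iff_of_nodup ?_ (nodup_finRange n)).2 (by simp [pf])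
  refine nodup_flatMap.2 ⟨fun k _ => (nodup_finRange n).filter _, ?_⟩
  refine (nodup_finRange K).imp fun {a b} h x h1 h2 => h ?_
  simp at h1 h2
  exact h1.symm.trans h2

lemma pf_mem {n K : ℕ} (f : Fin n → Fin K) : pf f ∈ Perms (wd n K) :=
  ⟨by simpa using (pf_perm f).length_eq, (pf_perm f).nodup_iff.2 (nodup_finRange n),
    Sublist.flatMap_right _ fun _ _ => filter_sublist⟩

lemma pf_sorted {n K : ℕ} (f : Fin n → Fin K) : ((pf f).map f).Pairwise (· ≤ ·) := by
  rw [pairwise_map, pf, pairwise_flatMap]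
  refine ⟨fun k _ => pairwise_of_forall_mem_list fun a ha b hb => ?_, ?_⟩
  · simp at ha hb; rw [ha, hb]
  · refine (pairwise_le_finRange K).imp fun {a b} h x hx y hy => ?_
    simp at hx hy; rw [hx, hy]; exact h

lemma count (n K : ℕ) : K ^ n ≤ (Perms (wd n K)).ncard * (K + n - 1).choose n := by
  let F : (Fin n → Fin K) → Perms (wd n K) × Sym (Fin K) n := fun f =>
    (⟨pf f, pf_mem f⟩, ⟨((pf f).map f : List _), by simpa using (pf_mem f).1⟩)
  have hF : F.Injective := fun f g h => by
    have h1 : pf f = pf g := congrArg (·.1.1) h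
    have h2 : (pf f).map f ~ (pf g).map g := Quotient.exact (congrArg (·.2.1) h)
    have h3 := h2.eq_of_pairwise' (pf_sorted f) (pf_sorted g)
    rw [← h1, map_inj_left] at h3
    exact funext fun i => h3 i ((pf_perm f).mem_iff.2 (mem_finRange i))
  have := (fin (wd n K)).to_subtype
  have := Nat.card_le_card_of_injective F hF
  simpa [Sym.card_sym_eq_choose, Nat.card_coe_set_eq] using this

lemma all (n : ℕ) : n.factorial ≤ (Perms (wd n n)).ncard := by
  have := Set.ncard_le_ncard_of_injOn (s := (Set.univ : Set (Equiv.Perm (Fin n))))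
    (fun π => ofFn π) (fun π _ => (⟨by simp, nodup_ofFn.2 π.injective, ?_⟩ : _ ∈ Perms (wd n n)))
    (fun a _ b _ h => Equiv.coe_fn_injective (ofFn_injective h)) (fin _)
  · simpa [Set.ncard_univ, Fintype.card_perm] using this
  · rw [ofFn_eq_map, map_eq_flatMap]
    exact Sublist.flatMap_right _ fun _ _ => by simp

lemma pw (n : ℕ) : n ^ n ≤ 3 ^ n * n.factorial := by
  have h := Real.pow_div_factorial_le_exp (n : ℝ) n.cast_nonneg n
  rw [div_le_iff₀ (by positivity), ← mul_one (n : ℝ), Real.exp_nat_mul] at h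
  have : Real.exp 1 ^ n ≤ 3 ^ n := pow_le_pow_left₀ (by positivity) (by
    have := Real.exp_one_lt_d9; linarith) n
  have : (n : ℝ) ^ n ≤ 3 ^ n * n.factorial := by
    simpa using h.trans (mul_le_mul_of_nonneg_right this (by positivity))
  exact_mod_cast this

lemma main {n m l : ℕ} (hn : 1 ≤ n) (hm : 1 ≤ m) (h1 : m ≤ n.factorial) (h2 : m ≤ l.choose n) :
    ∃ L ∈ H n m, L ≤ 13 * l := by
  have nl : n ≤ l := by
    by_contra c
    rw [Nat.choose_eq_zero_of_lt (by omega)] at h2; omega
  have d1 := Nat.div_mul_le_self (12 * l) n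
  have d2 := Nat.lt_div_mul_add (a := 12 * l) hn
  have len : ∀ K, (wd n K).length = K * n := fun K => by simp [wd]
  set k := 12 * l / n
  by_cases c : k + 1 ≤ n
  · refine ⟨_, ⟨wd n (k + 1), rfl, h2.trans ?_⟩, by rw [len]; nlinarith⟩
    have a := count n (k + 1)
    have b : (k + 1 + n - 1).choose n ≤ 4 ^ n := (Nat.choose_le_two_pow _ _).trans (by
      rw [show 4 = 2 ^ 2 from rfl, ← pow_mul]; exact Nat.pow_le_pow_right (by omega) (by omega))
    have e : n.factorial * l.choose n ≤ l ^ n := by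
      rw [← Nat.descFactorial_eq_factorial_mul_choose]; exact Nat.descFactorial_le_pow l n
    have g : (12 * l) ^ n ≤ ((k + 1) * n) ^ n := Nat.pow_le_pow_left (by nlinarith) n
    rw [mul_pow, mul_pow, show 12 = 4 * 3 from rfl, mul_pow] at g
    refine Nat.le_of_mul_le_mul_left (c := 4 ^ n * 3 ^ n * n.factorial) ?_ (by positivity)
    calc _ = 4 ^ n * 3 ^ n * (n.factorial * l.choose n) := by ring
      _ ≤ (k + 1) ^ n * n ^ n := (Nat.mul_le_mul_left _ e).trans g
      _ ≤ _ * 4 ^ n * (3 ^ n * n.factorial) :=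
        Nat.mul_le_mul (a.trans (Nat.mul_le_mul_left _ b)) (pw n)
      _ = _ := by ring
  · exact ⟨_, ⟨wd n n, rfl, h1.trans (all n)⟩, by rw [len]; nlinarith⟩

theorem result : ∃ C : ℝ, 0 < C ∧ ∀ n m : ℕ, 1 ≤ n → 1 ≤ m → m ≤ n.factorial →
    (H n m).Nonempty ∧ (E m n).Nonempty ∧ (sInf (H n m) : ℕ) ≤ C * (sInf (E m n) : ℕ) := by
  refine ⟨13, by norm_num, fun n m hn hm h => ?_⟩
  have ne : (E m n).Nonempty := by
    obtain ⟨n, rfl⟩ : ∃ k, n = k + 1 := ⟨n - 1, by omega⟩
    refine ⟨m + n, ?_⟩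
    show m ≤ _
    clear hm h hn
    induction m with
    | zero => simp
    | succ m ih =>
      have := Nat.choose_pos (show n ≤ m + n by omega)
      rw [show m + 1 + n = m + n + 1 by omega, Nat.choose_succ_succ']
      omega
  obtain ⟨L, a, b⟩ := main hn hm h (Nat.sInf_mem ne)
  exact ⟨⟨L, a⟩, ne, by exact_mod_cast (Nat.sInf_le a).trans b⟩

end Pool.Agent.Results.MP_6c7e5c_co.Full
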